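import Pool.Agent.Helper49.QU.Defs

/-!
# T-QUAD, P5c: base change of the symbols
-/

set_option autoImplicit false

namespace Pool.Agent.Helper29.QU

open Matrix Pool.Agent.Helper49.QU

theorem bil_map {R S : Type*} [CommRing R] [CommRing S] (ψ : R →+* S) {N : ℕ}
    (B : Matrix (Fin N) (Fin N) R) (v w : Fin N → R) :
    bil (B.map ψ) (fun j => ψ (v j)) (fun j => ψ (w j)) = ψ (bil B v w) := by
  simp [bil, map_sum, map_mul]

theorem D1_map {R S : Type*} [CommRing R] [CommRing S] (ψ : R →+* S) {N : ℕ}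
    (B : Matrix (Fin N) (Fin N) R) (v : Fin 3 → Fin N → R) :
    D1 (B.map ψ) (fun c j => ψ (v c j)) = ψ (D1 B v) := by
  unfold D1
  rw [bil_map]

theorem D2_map {R S : Type*} [CommRing R] [CommRing S] (ψ : R →+* S) {N : ℕ}
    (B : Matrix (Fin N) (Fin N) R) (v : Fin 3 → Fin N → R) :
    D2 (B.map ψ) (fun c j => ψ (v c j)) = ψ (D2 B v) := by
  unfold D2
  rw [bil_map, bil_map, bil_map]
  simp only [map_sub, map_mul, map_pow]

theorem D3_map {R S : Type*} [CommRing R] [CommRing S] (ψ : R →+* S) {N : ℕ}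
    (B : Matrix (Fin N) (Fin N) R) (v : Fin 3 → Fin N → R) :
    D3 (B.map ψ) (fun c j => ψ (v c j)) = ψ (D3 B v) := by
  unfold D3
  rw [RingHom.map_det]
  congr 1
  ext c d
  simp only [Matrix.of_apply, RingHom.mapMatrix_apply, Matrix.map_apply, bil_map]

theorem qa_map {R S : Type*} [CommRing R] [CommRing S] (ψ : R →+* S) {N : ℕ}
    (B : Matrix (Fin N) (Fin N) R) (v : Fin 3 → Fin N → R) :
    qa (B.map ψ) (fun c j => ψ (v c j)) = ψ (qa B v) := by
  unfold qa
  rw [D2_map, map_neg]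

theorem qb_map {R S : Type*} [CommRing R] [CommRing S] (ψ : R →+* S) {N : ℕ}
    (B : Matrix (Fin N) (Fin N) R) (v : Fin 3 → Fin N → R) :
    qb (B.map ψ) (fun c j => ψ (v c j)) = ψ (qb B v) := by
  unfold qb
  rw [D1_map, D2_map, D3_map]
  simp only [map_neg, map_mul]

variable {n r : ℕ} {N : Fin r → ℕ} {k : Type} [Field k]

/-- **P5c.** base change -/
theorem map_aQ_bQ {k' : Type} [Field k'] (φ : k →+* k')
    (B : ∀ i : Fin r, Matrix (Fin (N i)) (Fin (N i)) (MvPolynomial (Fin n) k)) (i : Fin r) :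
    MvPolynomial.map φ (aQ N B i) = aQ N (fun i => (B i).map (MvPolynomial.map φ)) i ∧
    MvPolynomial.map φ (bQ N B i) = bQ N (fun i => (B i).map (MvPolynomial.map φ)) i := by
  have h1 : incB N (fun i => (B i).map (MvPolynomial.map φ)) i =
      (incB N B i).map (MvPolynomial.map φ) := by
    ext1 j l
    simp only [incB, Matrix.map_apply, inc]
    exact (MvPolynomial.map_rename φ _ _).symm
  have h2 : gv n N k' i = fun c j => MvPolynomial.map φ (gv n N k i c j) := by
    funext c j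
    simp only [gv, MvPolynomial.map_X]
  unfold aQ bQ
  rw [h1, h2]
  exact ⟨(qa_map _ _ _).symm, (qb_map _ _ _).symm⟩

end Pool.Agent.Helper29.QU
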